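import Pool.Agent.helper76.DP.Spec
import Pool.Agent.helper76.HF.CLY

/-!
# Project DP (MP_bf63dc_nt), row CLX: cliques of forms for random places, `c` coordinates
-/

set_option autoImplicit false

namespace Pool.Agent.DP

open Finset
open Pool.Agent.FR (mean Eig)
open Pool.Agent.AT (Qk Pair Adm Many PRT)
open Pool.Agent.HF (Om TC NoTC CLZ_J CLZ_adm CLZ_same CLY_prod CLY_digits)

/-- a large clique -/
def CLX_L {c n : ℕ} (sl : Fin c → ℕ) (q : Fin n × Fin (c * 2) → ℤ) (J : Finset (Fin n × Fin (c * 2))) : Prop :=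
  (1 / 4 + 1 / 500000 : ℝ) * ((n : ℝ) * (c * 2 : ℕ)) ≤ #J ∧ ∀ x ∈ J, ∀ y ∈ J, (sl x.2.divNat, q x) ≠ (sl y.2.divNat, q y) →
    Pair (sl x.2.divNat, q x) (sl y.2.divNat, q y)

open Classical in
/-- for fixed places almost all choices of the shifts give a large clique -/
theorem CLX_fix (hQ : ∀ k : ℕ, 1 ≤ k → Qk k) (c n : ℕ) (sl : Fin c → ℕ) (η : ℝ) (hc : 1 ≤ c) (hn : 1 ≤ n) (hη : 0 < η) (hsl : ∀ χ, 1 ≤ sl χ) :
    ∃ L : ℕ, 1 ≤ L ∧ ∀ D : ℕ, (∀ p : ℕ, p.Prime → p ≤ n * (c * 2) → p ∣ D) → (∀ χ, ∀ p : ℕ, p.Prime → p ∣ sl χ → p ∣ D) →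
      ∀ R : Fin n × Fin (c * 2) → ℤ, (∀ z, IsCoprime (R z) (D : ℤ)) → ∀ Q : Fin n × Fin (c * 2) → Fin L → ℤ,
      (∀ x, Function.Injective (Q x)) → (∀ x l, (D : ℤ) ∣ Q x l - R x) →
      (#{w : Fin n × Fin (c * 2) → Fin L | ¬ ∃ J, CLX_L sl (fun x => Q x (w x)) J} : ℝ) ≤ η * (L : ℝ) ^ (n * (c * 2)) := by
  have hk : 1 ≤ n * (c * 2) := Nat.one_le_iff_ne_zero.2 (by positivity)
  obtain ⟨C, δ, hC, hδ, -, hQ⟩ := hQ (n * (c * 2)) hk
  obtain ⟨L, hL1, hL⟩ : ∃ L : ℕ, 1 ≤ L ∧ C * (L : ℝ) ^ (-δ) ≤ η := by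
    have h1 : Filter.Tendsto (fun L : ℕ => C * (L : ℝ) ^ (-δ)) Filter.atTop (nhds (C * 0)) :=
      ((tendsto_rpow_neg_atTop hδ).comp tendsto_natCast_atTop_atTop).const_mul C
    rw [mul_zero] at h1
    obtain ⟨L, h2, h3⟩ := ((h1.eventually (gt_mem_nhds hη)).and
      (Filter.eventually_ge_atTop 1)).exists
    exact ⟨L, h3, h2.le⟩
  refine ⟨L, hL1, ?_⟩
  intro D hD1 hD2 R hR Q hinj hsd
  obtain ⟨σ, hσ⟩ : ∃ σ : Fin (n * (c * 2)) ≃ Fin n × Fin (c * 2), σ = finProdFinEquiv.symm := ⟨_, rfl⟩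
  obtain ⟨F, hFdef⟩ : ∃ F : Fin (n * (c * 2)) → Finset (ℕ × ℤ), F = fun i => (univ : Finset (Fin L)).image (fun l => (sl (σ i).2.divNat, Q (σ i) l)) := ⟨_, rfl⟩
  have hF : ∀ i, #(F i) = L := by
    intro i
    rw [hFdef]
    dsimp only
    rw [Finset.card_image_of_injective _ (fun u v h => hinj _ (congrArg Prod.snd h)), card_univ, Fintype.card_fin]
  have h1 := hQ F L hL1 (fun i => (hF i).ge) (by
    intro i x hx
    rw [hFdef] at hx
    obtain ⟨u, -, rfl⟩ := Finset.mem_image.1 hx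
    exact hsl _)
  obtain ⟨f, hf⟩ : ∃ f : (Fin n × Fin (c * 2) → Fin L) → Fin (n * (c * 2)) → ℕ × ℤ, f = fun w i => (sl (σ i).2.divNat, Q (σ i) (w (σ i))) := ⟨_, rfl⟩
  have hadm : ∀ w, Adm (f w) := by
    intro w
    refine CLZ_adm (n * (c * 2)) D (f w) ?_ (fun i => R (σ i)) (fun i => hR _) ?_
    · intro p hp hpD
      refine ⟨?_, ?_⟩
      · by_contra hlt
        exact hpD (hD1 p hp (not_lt.1 hlt))
      · intro i hi
        rw [hf] at hi
        exact hpD (hD2 _ p hp hi)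
    · intro i
      rw [hf]
      exact hsd _ _
  have h2 : #{w : Fin n × Fin (c * 2) → Fin L | ¬ ∃ J, CLX_L sl (fun x => Q x (w x)) J} ≤ #{f ∈ Fintype.piFinset F | Adm f ∧ ¬ Many f} := by
    refine Finset.card_le_card_of_injOn f ?_ ?_
    · intro w hw
      have hw' := (Finset.mem_filter.1 (Finset.mem_coe.1 hw)).2
      refine Finset.mem_coe.2 (Finset.mem_filter.2 ⟨?_, hadm w, ?_⟩)
      · rw [Fintype.mem_piFinset]
        intro i
        rw [hFdef, hf]
        exact Finset.mem_image_of_mem _ (mem_univ (w (σ i)))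
      · intro hM
        obtain ⟨J, hJ1, hJ2⟩ := CLZ_J (n * (c * 2)) (f w) hM
        have hpair : ∀ i ∈ J, ∀ j ∈ J, f w i ≠ f w j → Pair (f w i) (f w j) := by
          intro i hi j hj hij
          refine PRT (f w i) (f w j) ?_ ?_ hij ?_ (hJ2 i hi j hj)
          · rw [hf]
            exact hsl _
          · rw [hf]
            exact hsl _
          · intro p hp
            obtain ⟨m, hm⟩ := hadm w p hp
            refine ⟨m, fun t => ?_⟩
            fin_cases t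
            · exact hm i
            · exact hm j
        refine hw' ⟨J.map σ.toEmbedding, ?_, ?_⟩
        · rw [Finset.card_map]
          have h3 : ((n * (c * 2) : ℕ) : ℝ) = (n : ℝ) * (c * 2 : ℕ) := by push_cast; ring
          rw [h3] at hJ1
          exact hJ1.le
        · intro x hx y hy
          obtain ⟨i, hi, rfl⟩ := Finset.mem_map.1 hx
          obtain ⟨j, hj, rfl⟩ := Finset.mem_map.1 hy
          have := hpair i hi j hj
          rw [hf] at this
          exact this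
    · intro w _ w' _ h
      funext x
      have h3 := congrFun h (σ.symm x)
      rw [hf] at h3
      dsimp only at h3
      rw [Equiv.apply_symm_apply] at h3
      exact hinj _ (congrArg Prod.snd h3)
  have h3 : ∏ i : Fin (n * (c * 2)), (#(F i) : ℝ) = (L : ℝ) ^ (n * (c * 2)) := by
    rw [Finset.prod_congr rfl (fun i _ => by rw [hF i]), Finset.prod_const, Finset.card_univ, Fintype.card_fin]
  rw [h3] at h1
  have hP : (0 : ℝ) ≤ (L : ℝ) ^ (n * (c * 2)) := by positivity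
  refine (Nat.cast_le.2 h2).trans (h1.trans ?_)
  calc C * (L : ℝ) ^ (n * (c * 2)) * (L : ℝ) ^ (-δ) = C * (L : ℝ) ^ (-δ) * (L : ℝ) ^ (n * (c * 2)) := by ring
    _ ≤ η * (L : ℝ) ^ (n * (c * 2)) := mul_le_mul_of_nonneg_right hL hP

/-- the type with the coordinate `χ` and the cluster `t` -/
def CLX_ty {c : ℕ} (χ : Fin c) (t : Fin 2) : Fin (c * 2) := finProdFinEquiv (χ, t)

theorem CLX_ty_div {c : ℕ} (χ : Fin c) (t : Fin 2) : (CLX_ty χ t).divNat = χ :=
  congrArg Prod.fst (finProdFinEquiv.symm_apply_apply (χ, t))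

theorem CLX_ty_mod {c : ℕ} (χ : Fin c) (t : Fin 2) : (CLX_ty χ t).modNat = t :=
  congrArg Prod.snd (finProdFinEquiv.symm_apply_apply (χ, t))

theorem CLX_ext {c : ℕ} {β β' : Fin (c * 2)} (h1 : β.divNat = β'.divNat) (h2 : β.modNat = β'.modNat) : β = β' :=
  finProdFinEquiv.symm.injective (Prod.ext h1 h2)

theorem CLX : CLX_stmt := by
  classical
  intro hQ c n sl η hc hn hη hsl
  obtain ⟨K, hK, hF⟩ := CLX_fix hQ c n sl η hc hn hη hsl
  refine ⟨K, hK, ?_⟩
  intro D hD hD1 hD2 U P x y hU hP hxy hinj hbad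
  have hKpos : 0 < K := hK
  -- the forms for fixed places
  obtain ⟨Q, hQd⟩ : ∃ Q : (Fin n → Fin c → Fin U) → Fin n × Fin (c * 2) → Fin K → ℤ,
      Q = fun (τ : Fin n → Fin c → Fin U) (z : Fin n × Fin (c * 2)) (l : Fin K) => P z.2.divNat (τ z.1 z.2.divNat : ℕ) +
        (if (z.2.modNat : ℕ) = 0 then x (l : ℕ) else y (l : ℕ)) := ⟨_, rfl⟩
  have hQinj : ∀ τ z, Function.Injective (Q τ z) := by
    intro τ z l l' hll
    rw [hQd] at hll
    dsimp only at hll
    have h1 := add_left_cancel hll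
    by_contra hne'
    have h2 : (l : ℕ) ≠ l' := fun h => hne' (Fin.ext h)
    have h3 := hinj l l.2 l' l'.2 h2
    split_ifs at h1
    · exact h3.1 h1
    · exact h3.2 h1
  have hQdvd : ∀ τ z l, (D : ℤ) ∣ Q τ z l - P z.2.divNat (τ z.1 z.2.divNat : ℕ) := by
    intro τ z l
    have h1 : (D : ℤ) ∣ (if (z.2.modNat : ℕ) = 0 then x (l : ℕ) else y (l : ℕ)) := by
      split_ifs
      · exact (hxy l l.2).1
      · exact (hxy l l.2).2
    rw [hQd]
    dsimp only
    rw [add_sub_cancel_left]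
    exact h1
  have hstep : ∀ τ : Fin n → Fin c → Fin U, (#{w : Fin n × Fin (c * 2) → Fin K | ¬ ∃ J, CLX_L sl (fun z => Q τ z (w z)) J} : ℝ) ≤ η * (K : ℝ) ^ (n * (c * 2)) :=
    fun τ => hF D hD1 hD2 (fun z => P z.2.divNat (τ z.1 z.2.divNat : ℕ)) (fun z => hP _ _ (τ z.1 z.2.divNat).2) (Q τ) (hQinj τ) (hQdvd τ)
  have htot := CLY_prod (A := Fin n → Fin c → Fin U) (B := Fin n × Fin (c * 2) → Fin K)
    (fun τ w => ¬ ∃ J, CLX_L sl (fun z => Q τ z (w z)) J) _ hstep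
  -- the coordinates of a sample
  have hdiv : ∀ p : ℕ, p < U * (K * K) → p / (K * K) < U := fun p hp => Nat.div_lt_of_lt_mul (by rw [mul_comm]; exact hp)
  obtain ⟨Φ, hΦ⟩ : ∃ Φ : Om n c (U * (K * K)) → (Fin n → Fin c → Fin U) × (Fin n × Fin (c * 2) → Fin K),
      Φ = fun (ω : Om n c (U * (K * K))) => (fun (h : Fin n) (s : Fin c) => ⟨(ω h s : ℕ) / (K * K), hdiv _ (ω h s).2⟩,
        fun (z : Fin n × Fin (c * 2)) => if (z.2.modNat : ℕ) = 0 then ⟨(ω z.1 z.2.divNat : ℕ) / K % K, Nat.mod_lt _ hKpos⟩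
          else ⟨(ω z.1 z.2.divNat : ℕ) % K, Nat.mod_lt _ hKpos⟩) := ⟨_, rfl⟩
  have hfm : ∀ (ω : Om n c (U * (K * K))) (z : Fin n × Fin (c * 2)), Q (Φ ω).1 z ((Φ ω).2 z) = fmX P x y K z.2 (ω z.1 z.2.divNat) := by
    intro ω z
    rw [hQd, hΦ]
    unfold fmX
    dsimp only
    by_cases hz : (z.2.modNat : ℕ) = 0
    · rw [if_pos hz, if_pos hz, if_pos hz]
    · rw [if_neg hz, if_neg hz, if_neg hz]
  have hΦinj : Function.Injective Φ := by
    intro ω ω' h
    funext m s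
    have h1 : (ω m s : ℕ) / (K * K) = (ω' m s : ℕ) / (K * K) := by
      have := congrFun (congrFun (congrArg Prod.fst h) m) s
      rw [hΦ] at this
      exact congrArg Fin.val this
    have h2 : (ω m s : ℕ) / K % K = (ω' m s : ℕ) / K % K := by
      have := congrFun (congrArg Prod.snd h) (m, CLX_ty s 0)
      rw [hΦ] at this
      dsimp only at this
      have e : ((CLX_ty s 0).modNat : ℕ) = 0 := by
        rw [CLX_ty_mod]
        rfl
      rw [if_pos e, if_pos e, CLX_ty_div] at this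
      exact congrArg Fin.val this
    have h3 : (ω m s : ℕ) % K = (ω' m s : ℕ) % K := by
      have := congrFun (congrArg Prod.snd h) (m, CLX_ty s 1)
      rw [hΦ] at this
      dsimp only at this
      have e : ¬ ((CLX_ty s 1).modNat : ℕ) = 0 := by
        rw [CLX_ty_mod]
        exact one_ne_zero
      rw [if_neg e, if_neg e, CLX_ty_div] at this
      exact congrArg Fin.val this
    apply Fin.ext
    rw [CLY_digits K (ω m s), CLY_digits K (ω' m s), h1, h2, h3]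
  have hle : #{ω : Om n c (U * (K * K)) | ¬ ∃ J : Finset (Fin n × Fin (c * 2)), (1 / 4 + 1 / 500000) * ((n : ℝ) * (c * 2 : ℕ)) ≤ #J ∧
      (∀ z ∈ J, ∀ z' ∈ J, z.2.divNat ≠ z'.2.divNat → PrE (sl z.2.divNat, fmX P x y K z.2 (ω z.1 z.2.divNat)) (sl z'.2.divNat, fmX P x y K z'.2 (ω z'.1 z'.2.divNat))) ∧
      (∀ z ∈ J, ∀ z' ∈ J, z.1 = z'.1 → z.2.divNat = z'.2.divNat → z.2 = z'.2)} ≤
      #{p : (Fin n → Fin c → Fin U) × (Fin n × Fin (c * 2) → Fin K) | ¬ ∃ J, CLX_L sl (fun z => Q p.1 z (p.2 z)) J} := by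
    refine Finset.card_le_card_of_injOn Φ ?_ (fun ω _ ω' _ h => hΦinj h)
    intro ω hω
    have hω' := (Finset.mem_filter.1 (Finset.mem_coe.1 hω)).2
    refine Finset.mem_coe.2 (Finset.mem_filter.2 ⟨mem_univ _, ?_⟩)
    rintro ⟨J, hJ1, hJ2⟩
    apply hω'
    refine ⟨J, hJ1, ?_, ?_⟩
    · intro z hz w hw _
      have h5 := hJ2 z hz w hw
      dsimp only at h5
      rw [hfm, hfm] at h5
      by_cases he : (sl z.2.divNat, fmX P x y K z.2 (ω z.1 z.2.divNat)) = (sl w.2.divNat, fmX P x y K w.2 (ω w.1 w.2.divNat))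
      · exact Or.inl he
      · exact Or.inr (h5 he)
    · -- one form for each point
      have key : ∀ z ∈ J, ∀ w ∈ J, z.1 = w.1 → z.2.divNat = w.2.divNat → (z.2.modNat : ℕ) = 0 → ¬ (w.2.modNat : ℕ) = 0 → False := by
        intro z hz w hw h1 h2 h3 h4
        have h5 := hJ2 z hz w hw
        have e1 : Q (Φ ω).1 z ((Φ ω).2 z) = P z.2.divNat ((Φ ω).1 z.1 z.2.divNat : ℕ) + x ((Φ ω).2 z : ℕ) := by
          rw [hQd]
          dsimp only
          rw [if_pos h3]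
        have e2 : Q (Φ ω).1 w ((Φ ω).2 w) = P z.2.divNat ((Φ ω).1 z.1 z.2.divNat : ℕ) + y ((Φ ω).2 w : ℕ) := by
          rw [hQd]
          dsimp only
          rw [if_neg h4, ← h2, ← h1]
        have hb2 := hbad ((Φ ω).2 z : ℕ) ((Φ ω).2 z).2 ((Φ ω).2 w : ℕ) ((Φ ω).2 w).2
        rw [← h2] at h5
        have h6 := h5 (by
          intro h7
          have h8 := congrArg Prod.snd h7
          dsimp only at h8
          rw [e1, e2] at h8
          exact hb2.1 (add_left_cancel h8))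
        have h7 := CLZ_same _ _ _ (hsl _) h6
        dsimp only at h7
        rw [e1, e2] at h7
        apply hb2.2
        have e3 : P z.2.divNat ((Φ ω).1 z.1 z.2.divNat : ℕ) + x ((Φ ω).2 z : ℕ) - (P z.2.divNat ((Φ ω).1 z.1 z.2.divNat : ℕ) + y ((Φ ω).2 w : ℕ)) =
            x ((Φ ω).2 z : ℕ) - y ((Φ ω).2 w : ℕ) := by ring
        rwa [e3] at h7
      intro z hz w hw h1 h2
      refine CLX_ext h2 ?_
      by_cases h3 : (z.2.modNat : ℕ) = 0
      · by_cases h4 : (w.2.modNat : ℕ) = 0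
        · exact Fin.ext (h3.trans h4.symm)
        · exact (key z hz w hw h1 h2 h3 h4).elim
      · by_cases h4 : (w.2.modNat : ℕ) = 0
        · exact (key w hw z hz h1.symm h2.symm h4 h3).elim
        · apply Fin.ext
          have h5 := z.2.modNat.2
          have h6 := w.2.modNat.2
          omega
  refine (Nat.cast_le.2 hle).trans (htot.trans (le_of_eq ?_))
  have hc' : (Fintype.card (Fin n → Fin c → Fin U) : ℝ) = (U : ℝ) ^ (n * c) := by
    have h1 : Fintype.card (Fin n → Fin c → Fin U) = (U ^ c) ^ n := by simp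
    rw [h1]
    push_cast
    rw [← pow_mul, mul_comm c n]
  rw [hc']
  push_cast
  rw [mul_pow, mul_pow]
  have e : (K : ℝ) ^ (n * (c * 2)) = (K : ℝ) ^ (n * c) * (K : ℝ) ^ (n * c) := by
    rw [← pow_add]
    congr 1
    ring
  rw [e]
  ring

end Pool.Agent.DP
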